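import Mathlib

/-!
# Coding pairs of countable sets by countable sets

For every uncountable cardinal `lam` there is a map `dec` on subsets of `lam` such that, whenever
`A ⊆ lam` has cardinality `lam`, each pair of countable bounded subsets of `A` is the value of
`dec` at some countably infinite bounded subset of `A`.
-/

set_option autoImplicit false

namespace Pool.Agent.H637

open Cardinal Set

/-- Proper initial segments of the order type of a cardinal are smaller. -/
theorem mk_Iio_lt_ord {κ : Cardinal.{0}} (i : κ.ord.ToType) : #(Iio i) < κ :=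
  (Cardinal.mk_Iio_toType_ord_lt i)

/-- Choosing distinct members of large sets. -/
theorem exists_inj_choice {T X : Type} (S : T → Set X) (κ : Cardinal.{0})
    (hT : #T ≤ κ) (hS : ∀ t, κ ≤ #(S t)) :
    ∃ f : T → X, Function.Injective f ∧ ∀ t, f t ∈ S t := by
  classical
  obtain ⟨ι⟩ : Nonempty (T ↪ κ.ord.ToType) := by
    rw [← Cardinal.le_def, Cardinal.mk_toType, Cardinal.card_ord]
    exact hT
  let r : T → T → Prop := fun a b => ι a < ι b
  have hr : WellFounded r := InvImage.wf ι wellFounded_lt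
  have key : ∀ (t : T) (F : ∀ s, r s t → X), ∃ x ∈ S t, ∀ s (h : r s t), F s h ≠ x := by
    intro t F
    by_contra hcon
    push Not at hcon
    choose s hs hF using fun x : S t => hcon x.1 x.2
    have h1 : #(S t) ≤ #(Iio (ι t)) := by
      refine Cardinal.mk_le_of_injective (f := fun x => ⟨ι (s x), hs x⟩) ?_
      intro x y hxy
      have h2 : s x = s y := ι.injective (congrArg Subtype.val hxy)
      apply Subtype.ext
      rw [← hF x, ← hF y]
      congr 1
    exact absurd (h1.trans_lt (mk_Iio_lt_ord _)) (not_lt.2 (hS t))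
  choose g hgS hg using key
  let f : T → X := hr.fix fun t F => g t F
  have hf : ∀ t, f t = g t fun s _ => f s := fun t => hr.fix_eq _ t
  refine ⟨f, ?_, fun t => by rw [hf]; exact hgS _ _⟩
  have hlt : ∀ s t, r s t → f s ≠ f t := by
    intro s t h
    rw [hf t]
    exact hg t (fun s _ => f s) s h
  intro s t hst
  by_contra hne
  rcases lt_trichotomy (ι s) (ι t) with h | h | h
  · exact hlt s t h hst
  · exact hne (ι.injective h)
  · exact hlt t s h hst.symm

/-- A colouring of the sets of natural numbers taking all values on the infinite subsets of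
each infinite set. -/
theorem exists_colour_nat {R : Type} [Nonempty R] (hR : #R ≤ 𝔠) :
    ∃ g : Set ℕ → R, ∀ B : Set ℕ, B.Infinite → ∀ r, ∃ w ⊆ B, w.Infinite ∧ g w = r := by
  classical
  let T := {B : Set ℕ // B.Infinite} × R
  have hT : #T ≤ 𝔠 := by
    have h1 : #{B : Set ℕ // B.Infinite} ≤ 𝔠 := by
      refine (Cardinal.mk_subtype_le _).trans ?_
      rw [Cardinal.mk_set, Cardinal.mk_nat, Cardinal.two_power_aleph0]
    calc #T = #{B : Set ℕ // B.Infinite} * #R := by rw [Cardinal.mk_prod]; simp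
      _ ≤ 𝔠 * 𝔠 := mul_le_mul' h1 hR
      _ = 𝔠 := Cardinal.mul_eq_self Cardinal.aleph0_le_continuum
  have hS : ∀ t : T, 𝔠 ≤ #{w : Set ℕ | w ⊆ t.1.1 ∧ w.Infinite} := by
    rintro ⟨⟨B, hB⟩, r⟩
    -- split `B` along an order isomorphism with `ℕ`
    have hBi : Infinite B := hB.to_subtype
    let e := Nat.orderEmbeddingOfSet B
    have he : ∀ n, e n ∈ B := fun n => by
      have := Nat.orderEmbeddingOfSet_range B
      rw [← this]
      exact ⟨n, rfl⟩
    have h2 : (#(Set ℕ) : Cardinal.{0}) ≤ #{w : Set ℕ | w ⊆ B ∧ w.Infinite} := by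
      refine Cardinal.mk_le_of_injective
        (f := fun Z : Set ℕ => ⟨e '' ((fun n => 2 * n) '' Z ∪ range fun n => 2 * n + 1), ?_, ?_⟩) ?_
      · rintro _ ⟨n, _, rfl⟩
        exact he n
      · refine Set.Infinite.image e.injective.injOn ?_
        exact (Set.infinite_range_of_injective (fun a b h => by simpa using h)).mono
          subset_union_right
      · intro Z Z' h
        have h3 := (e.injective.image_injective) (Subtype.mk.inj h)
        ext n
        have h4 : ∀ Z : Set ℕ, n ∈ Z ↔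
            2 * n ∈ ((fun n => 2 * n) '' Z ∪ range fun n => 2 * n + 1) := by
          intro Z
          constructor
          · intro hn
            exact Or.inl ⟨n, hn, rfl⟩
          · rintro (⟨m, hm, hmn⟩ | ⟨m, hm⟩)
            · have : m = n := by simpa using hmn
              rwa [← this]
            · exfalso
              simp only at hm
              omega
        rw [h4 Z, h4 Z', h3]
    rwa [Cardinal.mk_set, Cardinal.mk_nat, Cardinal.two_power_aleph0] at h2
  obtain ⟨f, hf, hfS⟩ := exists_inj_choice (fun t : T => {w : Set ℕ | w ⊆ t.1.1 ∧ w.Infinite}) 𝔠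
    hT hS
  refine ⟨fun w => if h : ∃ t, f t = w then h.choose.2 else Classical.arbitrary R, ?_⟩
  intro B hB r
  refine ⟨f (⟨B, hB⟩, r), (hfS _).1, (hfS _).2, ?_⟩
  have h : ∃ t, f t = f (⟨B, hB⟩, r) := ⟨_, rfl⟩
  have h1 : h.choose = (⟨B, hB⟩, r) := hf h.choose_spec
  simp only [dif_pos h]
  rw [h1]

/-- The same for arbitrary sets in place of `ℕ`. -/
theorem exists_colour (L : Type) {R : Type} [Nonempty R] (hR : #R ≤ 𝔠) :
    ∃ g : Set L → R, ∀ B : Set L, B.Infinite → ∀ r, ∃ w ⊆ B, w.Infinite ∧ g w = r := by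
  classical
  obtain ⟨g0, hg0⟩ := exists_colour_nat hR
  -- a maximal almost disjoint family of countably infinite sets
  obtain ⟨W, hW⟩ := zorn_subset {W : Set (Set L) | (∀ a ∈ W, a.Infinite ∧ a.Countable) ∧
    ∀ a ∈ W, ∀ b ∈ W, a ≠ b → (a ∩ b).Finite} (by
    intro c hc hchain
    refine ⟨⋃₀ c, ⟨?_, ?_⟩, fun S hS => subset_sUnion_of_mem hS⟩
    · rintro a ⟨S, hS, ha⟩
      exact (hc hS).1 a ha
    · rintro p ⟨S, hS, hp⟩ q ⟨S', hS', hq⟩ hne
      rcases hchain.total hS hS' with h | h
      · exact (hc hS').2 p (h hp) q hq hne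
      · exact (hc hS).2 p hp q (h hq) hne)
  have hmax : ∀ B : Set L, B.Infinite → ∃ a ∈ W, (a ∩ B).Infinite := by
    intro B hB
    obtain ⟨s⟩ : Nonempty (ℕ ↪ B) := by
      have := hB.to_subtype
      exact ⟨Infinite.natEmbedding B⟩
    let C : Set L := range fun n => (s n).1
    have hCB : C ⊆ B := by rintro _ ⟨n, rfl⟩; exact (s n).2
    have hCi : C.Infinite := Set.infinite_range_of_injective
      (Subtype.val_injective.comp s.injective)
    have hCc : C.Countable := Set.countable_range _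
    by_contra hcon
    push Not at hcon
    have hC : ∀ a ∈ W, (a ∩ C).Finite := fun a ha =>
      (hcon a ha).subset (inter_subset_inter_right _ hCB)
    have h2 : insert C W ∈ {W : Set (Set L) | (∀ a ∈ W, a.Infinite ∧ a.Countable) ∧
        ∀ a ∈ W, ∀ b ∈ W, a ≠ b → (a ∩ b).Finite} := by
      refine ⟨?_, ?_⟩
      · rintro a (rfl | ha)
        · exact ⟨hCi, hCc⟩
        · exact hW.prop.1 a ha
      · rintro p (rfl | hp) q (rfl | hq) hne
        · exact absurd rfl hne
        · rw [inter_comm]; exact hC q hq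
        · exact hC p hp
        · exact hW.prop.2 p hp q hq hne
    have h3 := hW.le_of_ge h2 (subset_insert C W) (mem_insert C W)
    exact hCi (by simpa using hC C h3)
  -- transport the colouring to the members of the family
  have hcol : ∀ a ∈ W, ∃ g : Set L → R, ∀ B ⊆ a, B.Infinite → ∀ r, ∃ w ⊆ B, w.Infinite ∧ g w = r := by
    intro a ha
    obtain ⟨hi, hc⟩ := hW.prop.1 a ha
    obtain ⟨e, he⟩ : ∃ e : L → ℕ, Set.InjOn e a := Set.countable_iff_exists_injOn.1 hc
    refine ⟨fun w => g0 (e '' w), fun B hB hBi r => ?_⟩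
    obtain ⟨v, hv, hvi, hvr⟩ := hg0 (e '' B) (hBi.image (he.mono hB)) r
    refine ⟨B ∩ e ⁻¹' v, inter_subset_left, ?_, ?_⟩
    · have h1 : e '' (B ∩ e ⁻¹' v) = v := by
        rw [image_inter_preimage, inter_eq_right]
        exact hv
      intro hfin
      exact hvi (h1 ▸ hfin.image e)
    · have h1 : e '' (B ∩ e ⁻¹' v) = v := by
        rw [image_inter_preimage, inter_eq_right]
        exact hv
      simp only [h1, hvr]
  choose! G hG using hcol
  refine ⟨fun w => if h : ∃ a ∈ W, w ⊆ a then G h.choose w else Classical.arbitrary R, ?_⟩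
  intro B hB r
  obtain ⟨a, ha, hab⟩ := hmax B hB
  obtain ⟨w, hw, hwi, hwr⟩ := hG a ha (a ∩ B) inter_subset_left hab r
  refine ⟨w, hw.trans inter_subset_right, hwi, ?_⟩
  have h : ∃ a ∈ W, w ⊆ a := ⟨a, ha, hw.trans inter_subset_left⟩
  have h1 : h.choose = a := by
    by_contra hne
    exact hwi ((hW.prop.2 _ h.choose_spec.1 a ha hne).subset
      (subset_inter h.choose_spec.2 (hw.trans inter_subset_left)))
  simp only [dif_pos h]
  rw [h1, hwr]

/-- `x` is a countably infinite subset of the ordered set `L` which is bounded in `L`. -/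
def CtblBdd {L : Type} [LinearOrder L] (x : Set L) : Prop :=
  x.Infinite ∧ x.Countable ∧ ∃ b, ∀ a ∈ x, a < b

section Blocks

variable {L : Type} [LinearOrder L]

/-- The last block of type `ω` of a set. -/
def lastBlock (u : Set L) : Set L := {a | a ∈ u ∧ ∀ b ∈ u, {c | c ∈ u ∧ a ≤ c ∧ c < b}.Finite}

theorem lastBlock_union {z w : Set L} (hz : ∀ a ∈ z, {c | c ∈ z ∧ a ≤ c}.Infinite)
    (hw : ∀ b ∈ w, {c | c ∈ w ∧ c < b}.Finite) (hne : w.Nonempty)
    (hzw : ∀ a ∈ z, ∀ b ∈ w, a < b) : lastBlock (z ∪ w) = w := by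
  ext a
  constructor
  · rintro ⟨ha | ha, h⟩
    · exfalso
      obtain ⟨b, hb⟩ := hne
      refine hz a ha ((h b (Or.inr hb)).subset ?_)
      rintro c ⟨hc, hac⟩
      exact ⟨Or.inl hc, hac, hzw c hc b hb⟩
    · exact ha
  · intro ha
    refine ⟨Or.inr ha, ?_⟩
    rintro b (hb | hb)
    · convert Set.finite_empty (α := L)
      ext c
      simp only [Set.mem_ofPred_eq, Set.mem_empty_iff_false, iff_false, not_and, not_lt]
      intro _ hac
      exact ((hzw b hb a ha).trans_le hac).le
    · refine (hw b hb).subset ?_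
      rintro c ⟨hc | hc, hac, hcb⟩
      · exact absurd (hzw c hc a ha) (not_lt.2 hac)
      · exact ⟨hc, hcb⟩

theorem diff_lastBlock {z w : Set L} (hz : ∀ a ∈ z, {c | c ∈ z ∧ a ≤ c}.Infinite)
    (hw : ∀ b ∈ w, {c | c ∈ w ∧ c < b}.Finite) (hne : w.Nonempty)
    (hzw : ∀ a ∈ z, ∀ b ∈ w, a < b) : (z ∪ w) \ lastBlock (z ∪ w) = z := by
  rw [lastBlock_union hz hw hne hzw]
  ext a
  constructor
  · rintro ⟨h | h, h'⟩
    · exact h
    · exact absurd h h'
  · intro h
    exact ⟨Or.inl h, fun h' => absurd (hzw a h a h') (lt_irrefl _)⟩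

end Blocks

/-- Above each point, a set of full size contains a bounded block of type `ω`. -/
theorem exists_block {lam : Cardinal.{0}} (hlam : ℵ₀ < lam) {A : Set lam.ord.ToType}
    (hA : #A = lam) (b : lam.ord.ToType) :
    ∃ s : ℕ → lam.ord.ToType, StrictMono s ∧ (∀ n, s n ∈ A) ∧ (∀ n, b < s n) ∧ ∃ c, ∀ n, s n < c := by
  classical
  -- the part of `A` above `b`
  have hA' : ∀ D : Set lam.ord.ToType, #D < lam → ∃ a ∈ A, a ∉ D := by
    intro D hD
    by_contra hcon
    push Not at hcon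
    exact absurd (Cardinal.mk_le_mk_of_subset hcon) (not_le.2 (hD.trans_eq hA.symm))
  have hnext : ∀ d : lam.ord.ToType, ∃ a ∈ A, d < a := by
    intro d
    obtain ⟨a, ha, hda⟩ := hA' (Iic d) (by
      rw [← Set.Iio_insert]
      refine (Cardinal.mk_insert_le).trans_lt ?_
      exact Cardinal.add_lt_of_lt hlam.le (mk_Iio_lt_ord d) (Cardinal.one_lt_aleph0.trans hlam))
    exact ⟨a, ha, not_le.1 hda⟩
  -- the next element
  have hmin : ∀ d : lam.ord.ToType, ∃ a ∈ A, d < a ∧ ∀ a' ∈ A, d < a' → a ≤ a' := by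
    intro d
    obtain ⟨a, ha, hda⟩ := hnext d
    have hwf : WellFounded ((· < ·) : lam.ord.ToType → lam.ord.ToType → Prop) := wellFounded_lt
    refine ⟨hwf.min {a | a ∈ A ∧ d < a} ⟨a, ha, hda⟩, ?_, ?_, ?_⟩
    · exact (hwf.min_mem {a | a ∈ A ∧ d < a} ⟨a, ha, hda⟩).1
    · exact (hwf.min_mem {a | a ∈ A ∧ d < a} ⟨a, ha, hda⟩).2
    · intro a' ha' hda'
      exact hwf.min_le (⟨ha', hda'⟩ : a' ∈ {a | a ∈ A ∧ d < a})
  choose nx hnxA hnx hnxmin using hmin
  let s : ℕ → lam.ord.ToType := fun n => Nat.rec (nx b) (fun _ a => nx a) n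
  have hs : ∀ n, s (n+1) = nx (s n) := fun n => rfl
  have hmono : StrictMono s := strictMono_nat_of_lt_succ fun n => by rw [hs]; exact hnx _
  have hsA : ∀ n, s n ∈ A := by
    intro n
    cases n with
    | zero => exact hnxA b
    | succ n => exact hnxA _
  have hb : ∀ n, b < s n := fun n => (hnx b).trans_le (hmono.monotone (Nat.zero_le n))
  refine ⟨s, hmono, hsA, hb, Classical.byContradiction fun hcon => ?_⟩
  push Not at hcon
  -- every element of `A` above `b` is some `s n`
  have hall : ∀ a ∈ A, b < a → ∃ n, a = s n := by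
    intro a ha hba
    by_contra h
    push Not at h
    have h1 : ∀ n, s n < a := by
      intro n
      induction n with
      | zero => exact lt_of_le_of_ne (hnxmin b a ha hba) (h 0).symm
      | succ n ih => exact lt_of_le_of_ne (hnxmin _ a ha ih) (h (n+1)).symm
    obtain ⟨n, hn⟩ := hcon a
    exact absurd (h1 n) (not_lt.2 hn)
  obtain ⟨a, ha, had⟩ := hA' (Iic b ∪ range s) (by
    refine (Cardinal.mk_union_le _ _).trans_lt (Cardinal.add_lt_of_lt hlam.le ?_ ?_)
    · rw [← Set.Iio_insert]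
      refine (Cardinal.mk_insert_le).trans_lt ?_
      exact Cardinal.add_lt_of_lt hlam.le (mk_Iio_lt_ord b) (Cardinal.one_lt_aleph0.trans hlam)
    · exact ((Cardinal.le_aleph0_iff_set_countable).2 (Set.countable_range s)).trans_lt hlam)
  obtain ⟨n, hn⟩ := hall a ha (not_le.1 fun h => had (Or.inl h))
  exact had (Or.inr ⟨n, hn.symm⟩)

/-- The decoding map. -/
theorem exists_dec {lam : Cardinal.{0}} (hlam : ℵ₀ < lam) :
    ∃ dec : Set lam.ord.ToType → Set lam.ord.ToType × Set lam.ord.ToType,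
      ∀ A : Set lam.ord.ToType, #A = lam → ∀ x y : Set lam.ord.ToType,
        x ⊆ A → y ⊆ A → CtblBdd x → CtblBdd y → ∃ u ⊆ A, CtblBdd u ∧ dec u = (x, y) := by
  classical
  obtain ⟨g, hg⟩ := exists_colour lam.ord.ToType (R := Set ℕ × Set ℕ) (by
    rw [Cardinal.mk_prod]
    simp only [Cardinal.lift_id, Cardinal.mk_set, Cardinal.mk_nat, Cardinal.two_power_aleph0]
    exact (Cardinal.mul_eq_self Cardinal.aleph0_le_continuum).le)
  have hen : ∀ z : Set lam.ord.ToType, ∃ e : ℕ → lam.ord.ToType, z.Countable → z.Nonempty →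
      z = range e := by
    intro z
    by_cases h : z.Countable ∧ z.Nonempty
    · obtain ⟨e, he⟩ := h.1.exists_eq_range h.2
      exact ⟨e, fun _ _ => he⟩
    · have : Nonempty lam.ord.ToType := by
        rw [← Cardinal.mk_ne_zero_iff, Cardinal.mk_toType, Cardinal.card_ord]
        exact (Cardinal.aleph0_pos.trans hlam).ne'
      exact ⟨fun _ => Classical.arbitrary _, fun h1 h2 => absurd ⟨h1, h2⟩ h⟩
  choose e he using hen
  refine ⟨fun u => (e (u \ lastBlock u) '' (g (lastBlock u)).1,
    e (u \ lastBlock u) '' (g (lastBlock u)).2), ?_⟩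
  rintro A hA x y hxA hyA ⟨hxi, hxc, bx, hbx⟩ ⟨hyi, hyc, bY, hby⟩
  obtain ⟨s, hs, hsA, hsb, c, hsc⟩ := exists_block hlam hA (max bx bY)
  obtain ⟨t, ht, htA, htb, d, htd⟩ := exists_block hlam hA c
  -- the first part
  let z : Set lam.ord.ToType := x ∪ y ∪ range s
  have hzc : z.Countable := (hxc.union hyc).union (Set.countable_range s)
  have hzne : z.Nonempty := ⟨s 0, Or.inr ⟨0, rfl⟩⟩
  have hzlt : ∀ a ∈ z, a < c := by
    rintro a ((h | h) | ⟨n, rfl⟩)
    · exact ((hbx a h).trans_le (le_max_left _ _)).trans ((hsb 0).trans (hsc 0))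
    · exact ((hby a h).trans_le (le_max_right _ _)).trans ((hsb 0).trans (hsc 0))
    · exact hsc n
  have hzinf : ∀ a ∈ z, {c | c ∈ z ∧ a ≤ c}.Infinite := by
    have h1 : ∀ n, {c | c ∈ z ∧ s n ≤ c}.Infinite := by
      intro n
      have h2 : (range fun m => s (n + m)).Infinite :=
        Set.infinite_range_of_injective (fun a b h => by simpa using hs.injective h)
      refine h2.mono ?_
      rintro _ ⟨m, rfl⟩
      exact ⟨Or.inr ⟨n+m, rfl⟩, hs.monotone (Nat.le_add_right n m)⟩
    rintro a ((h | h) | ⟨n, rfl⟩)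
    · refine (h1 0).mono ?_
      rintro c ⟨hc, h0⟩
      exact ⟨hc, (((hbx a h).trans_le (le_max_left _ _)).trans (hsb 0)).le.trans h0⟩
    · refine (h1 0).mono ?_
      rintro c ⟨hc, h0⟩
      exact ⟨hc, (((hby a h).trans_le (le_max_right _ _)).trans (hsb 0)).le.trans h0⟩
    · exact h1 n
  obtain ⟨w, hwt, hwi, hwg⟩ := hg (range t) (Set.infinite_range_of_injective ht.injective)
    (e z ⁻¹' x, e z ⁻¹' y)
  have hwb : ∀ b ∈ w, {c | c ∈ w ∧ c < b}.Finite := by
    intro b hb
    obtain ⟨n, rfl⟩ := hwt hb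
    refine ((Set.finite_Iio n).image t).subset ?_
    rintro c ⟨hc, hcb⟩
    obtain ⟨m, rfl⟩ := hwt hc
    exact ⟨m, ht.lt_iff_lt.1 hcb, rfl⟩
  have hzw : ∀ a ∈ z, ∀ b ∈ w, a < b := by
    intro a ha b hb
    obtain ⟨n, rfl⟩ := hwt hb
    exact (hzlt a ha).trans (htb n)
  have hlast := lastBlock_union hzinf hwb hwi.nonempty hzw
  have hdiff := diff_lastBlock hzinf hwb hwi.nonempty hzw
  refine ⟨z ∪ w, ?_, ⟨?_, ?_, ?_⟩, ?_⟩
  · rintro a (((h | h) | ⟨n, rfl⟩) | h)
    · exact hxA h
    · exact hyA h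
    · exact hsA n
    · obtain ⟨n, rfl⟩ := hwt h
      exact htA n
  · exact hwi.mono subset_union_right
  · exact hzc.union ((Set.countable_range t).mono hwt)
  · refine ⟨d, ?_⟩
    rintro a (h | h)
    · exact (hzlt a h).trans ((htb 0).trans (htd 0))
    · obtain ⟨n, rfl⟩ := hwt h
      exact htd n
  · simp only
    rw [hdiff, hlast, hwg]
    have hr := he z hzc hzne
    simp only [image_preimage_eq_inter_range]
    rw [← hr]
    congr 1
    · exact inter_eq_left.2 fun a h => Or.inl (Or.inl h)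
    · exact inter_eq_left.2 fun a h => Or.inl (Or.inr h)

end Pool.Agent.H637
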